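import Pool.Agent.E8helper2.PS.Stm

set_option autoImplicit false
open MeasureTheory Filter Topology Set
namespace Pool.Agent.E8helper26.PS
open Pool.Agent.E8helper2.PS

theorem cont_D (h3 : S_CONT) (a : ℕ → ℂ) (M : ℝ) (ha : ∀ n, ‖a n‖ ≤ M) (N : ℕ) (t : ℝ) (ht : 0 < t) :
    Continuous (Dl a N t) := by
  have hM : 0 ≤ M := (norm_nonneg _).trans (ha 0)
  have hsh : ∀ n, ‖sh a N n‖ ≤ M := fun n => ha _
  have hrv : ∀ n, ‖rv a N n‖ ≤ M := by
    intro n
    unfold rv
    split_ifs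
    · exact ha _
    · simpa using hM
  have d1 := ((h3 (sh a N) M hsh).1).continuousOn
  have d2 := ((h3 (rv a N) M hrv).1).continuousOn
  unfold Dl
  refine Continuous.add ?_ ?_
  · refine d1.comp_continuous (by fun_prop) (fun θ => ?_)
    simp [ht]
  · refine d2.comp_continuous (by fun_prop) (fun θ => ?_)
    simp [ht]

theorem t_CELL (h1 : S_GAPI) (h3 : S_CONT) : S_CELL := by
  intro a M S hyp x hx hx2 L hL
  refine ⟨1, one_pos, fun N t ht _ => ?_⟩
  have hM : 0 ≤ M := (norm_nonneg _).trans (hyp.coef 0)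
  have hpi := Real.pi_pos
  set D : ℝ → ℂ := Dl a N t with hD
  have hDc : Continuous D := cont_D h3 a M hyp.coef N t ht
  set W : Set ℝ := (Set.Ioo x (x + 2 * Real.pi) \ S) \ ⋃ p ∈ L, Set.Ioo p.1 p.2 with hW
  have hWm : MeasurableSet W := by
    rw [hW]
    refine (measurableSet_Ioo.diff hyp.closed.measurableSet).diff ?_
    exact L.measurableSet_biUnion (fun p _ => measurableSet_Ioo)
  have hWsub : W ⊆ Set.Ioo x (x + 2 * Real.pi) := fun θ h => h.1.1
  have hint : ∀ E ⊆ W, IntegrableOn D E := fun E hE =>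
    (hDc.integrableOn_Icc (a := x) (b := x + 2 * Real.pi)).mono_set
      (fun θ h => Ioo_subset_Icc_self (hWsub (hE h)))
  have hfin : ∀ E ⊆ W, volume E ≠ ⊤ := fun E hE =>
    ((measure_mono (hE.trans hWsub)).trans_lt (by rw [Real.volume_Ioo]; exact ENNReal.ofReal_lt_top)).ne
  have hstep : ∀ E F : Set ℝ, E ⊆ W → F ⊆ W → MeasurableSet F → Disjoint E F →
      ‖∫ θ in E, D θ‖ ≤ 12 * M * (volume E).toReal → ‖∫ θ in F, D θ‖ ≤ 12 * M * (volume F).toReal →
      ‖∫ θ in E ∪ F, D θ‖ ≤ 12 * M * (volume (E ∪ F)).toReal := by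
    intro E F hE hF hFm hdis b1 b2
    rw [setIntegral_union hdis hFm (hint E hE) (hint F hF), measure_union hdis hFm,
      ENNReal.toReal_add (hfin E hE) (hfin F hF)]
    refine (norm_add_le _ _).trans ?_
    linarith
  have hsplit : ∀ k k' : ℝ, k < k' → W ∩ Iio k' = (W ∩ Iio k) ∪ (W ∩ Ico k k') := by
    intro k k' hkk
    ext θ
    simp only [mem_inter_iff, mem_Iio, mem_union, mem_Ico]
    constructor
    · rintro ⟨h1, h2⟩
      rcases lt_or_ge θ k with h | h
      · exact Or.inl ⟨h1, h⟩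
      · exact Or.inr ⟨h1, h, h2⟩
    · rintro (⟨h1, h2⟩ | ⟨h1, h2, h3⟩)
      · exact ⟨h1, h2.trans hkk⟩
      · exact ⟨h1, h3⟩
  have hdisj : ∀ k k' : ℝ, Disjoint (W ∩ Iio k) (W ∩ Ico k k') := by
    intro k k'
    rw [Set.disjoint_left]
    rintro θ ⟨_, h1⟩ ⟨_, h2⟩
    exact absurd h1 (not_lt.2 h2.1)
  have go : ∀ k k' : ℝ, k < k' →
      ‖∫ θ in W ∩ Ico k k', D θ‖ ≤ 12 * M * (volume (W ∩ Ico k k')).toReal →
      ‖∫ θ in W ∩ Iio k, D θ‖ ≤ 12 * M * (volume (W ∩ Iio k)).toReal →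
      ‖∫ θ in W ∩ Iio k', D θ‖ ≤ 12 * M * (volume (W ∩ Iio k')).toReal := by
    intro k k' hkk b2 b1
    rw [hsplit k k' hkk]
    exact hstep _ _ inter_subset_left inter_subset_left (hWm.inter measurableSet_Ico) (hdisj k k') b1 b2
  have one : ∀ k ∈ S, ∀ k' ∈ S, k < k' → k' ≤ k + t →
      ‖∫ θ in W ∩ Ico k k', D θ‖ ≤ 12 * M * (volume (W ∩ Ico k k')).toReal := by
    intro k hk k' hk' hkk ht'
    have hb := (h1 a M S hyp k hk k' hk' hkk N t ht).2 (by linarith)
    have h4 := norm_setIntegral_le_of_norm_le_const (μ := volume) (s := W ∩ Ico k k') (f := D)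
      (C := 8 * M) (lt_top_iff_ne_top.2 (hfin _ inter_subset_left))
      (fun θ h => hb θ ⟨h.2.1, h.2.2.le⟩)
    refine h4.trans ?_
    have h0 : 0 ≤ (volume (W ∩ Ico k k')).toReal := ENNReal.toReal_nonneg
    have h5 : volume.real (W ∩ Ico k k') = (volume (W ∩ Ico k k')).toReal := rfl
    rw [h5]
    have h6 := mul_nonneg hM h0
    linarith
  have two : ∀ k ∈ S, ∀ k' ∈ S, k < k' → x ≤ k → k' ≤ x + 2 * Real.pi → t ≤ k' - k →
      (∀ θ ∈ Ioo k k', θ ∉ S) →
      ‖∫ θ in W ∩ Ico k k', D θ‖ ≤ 12 * M * (volume (W ∩ Ico k k')).toReal := by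
    intro k hk k' hk' hkk hxk hkx htk hgap
    by_cases hmem : (k, k') ∈ L
    · have he : W ∩ Ico k k' = ∅ := by
        rw [Set.eq_empty_iff_forall_notMem]
        rintro θ ⟨hθ, hθ1, hθ2⟩
        rcases hθ1.eq_or_lt with h | h
        · exact hθ.1.2 (h ▸ hk)
        · apply hθ.2
          simp only [mem_iUnion]
          exact ⟨(k, k'), hmem, h, hθ2⟩
      rw [he]
      simp
    · have he : W ∩ Ico k k' = Ioo k k' := by
        ext θ
        constructor
        · rintro ⟨hθ, hθ1, hθ2⟩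
          rcases hθ1.eq_or_lt with h | h
          · exact absurd (h ▸ hk) hθ.1.2
          · exact ⟨h, hθ2⟩
        · rintro ⟨h1', h2'⟩
          refine ⟨⟨⟨⟨by linarith, by linarith⟩, hgap θ ⟨h1', h2'⟩⟩, ?_⟩, h1'.le, h2'⟩
          simp only [mem_iUnion, not_exists]
          rintro p hp ⟨hp1, hp2⟩
          obtain ⟨q1, q2, q3, q4, q5, q6⟩ := hL p hp
          have e1 : p.1 = k := by
            apply le_antisymm
            · by_contra hc
              push Not at hc
              exact hgap p.1 ⟨hc, hp1.trans h2'⟩ q2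
            · by_contra hc
              push Not at hc
              exact q6 k ⟨hc, h1'.trans hp2⟩ hk
          have e2 : p.2 = k' := by
            apply le_antisymm
            · by_contra hc
              push Not at hc
              exact q6 k' ⟨hp1.trans h2', hc⟩ hk'
            · by_contra hc
              push Not at hc
              exact hgap p.2 ⟨h1'.trans hp2, hc⟩ q3
          exact hmem (by rw [← e1, ← e2]; exact hp)
      rw [he]
      have hb := (h1 a M S hyp k hk k' hk' hkk N t ht).1 htk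
      rw [intervalIntegral.integral_of_le hkk.le, integral_Ioc_eq_integral_Ioo] at hb
      rw [Real.volume_Ioo, ENNReal.toReal_ofReal (by linarith)]
      exact hb
  set T : Set ℝ := {k | k ∈ S ∧ x ≤ k ∧ k ≤ x + 2 * Real.pi ∧
    ‖∫ θ in W ∩ Iio k, D θ‖ ≤ 12 * M * (volume (W ∩ Iio k)).toReal} with hT
  have hxT : x ∈ T := by
    refine ⟨hx, le_rfl, by linarith, ?_⟩
    have he : W ∩ Iio x = ∅ := by
      rw [Set.eq_empty_iff_forall_notMem]
      rintro θ ⟨h, h'⟩
      exact absurd (hWsub h).1 (not_lt.2 (le_of_lt h'))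
    rw [he]
    simp
  have hbdd : BddAbove T := ⟨x + 2 * Real.pi, fun k hk => hk.2.2.1⟩
  have hne : T.Nonempty := ⟨x, hxT⟩
  set s := sSup T with hs
  have hxs : x ≤ s := le_csSup hbdd hxT
  have hsx : s ≤ x + 2 * Real.pi := csSup_le hne (fun k hk => hk.2.2.1)
  have hsS : s ∈ S := by
    have h4 : s ∈ closure T := csSup_mem_closure hne hbdd
    exact (hyp.closed.closure_subset_iff.2 (fun k hk => hk.1)) h4
  have hsT : s ∈ T := by
    obtain ⟨k, hk, hk2⟩ := exists_lt_of_lt_csSup hne (show s - t < sSup T by linarith)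
    have hks : k ≤ s := le_csSup hbdd hk
    rcases hks.eq_or_lt with h | h
    · rw [← h]
      exact hk
    · exact ⟨hsS, hxs, hsx, go k s h (one k hk.1 s hsS h (by linarith)) hk.2.2.2⟩
  have hend : s = x + 2 * Real.pi := by
    by_contra hne'
    have hlt : s < x + 2 * Real.pi := lt_of_le_of_ne hsx hne'
    by_cases hcase : ∃ k' ∈ S, s < k' ∧ k' ≤ s + t ∧ k' ≤ x + 2 * Real.pi
    · obtain ⟨k', h1', h2', h3', h4'⟩ := hcase
      have h5 : k' ∈ T :=
        ⟨h1', hxs.trans h2'.le, h4', go s k' h2' (one s hsS k' h1' h2' h3') hsT.2.2.2⟩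
      exact absurd (le_csSup hbdd h5) (not_le.2 h2')
    · push Not at hcase
      set Q : Set ℝ := {q | q ∈ S ∧ s < q} with hQ
      have hQ1 : x + 2 * Real.pi ∈ Q := ⟨hx2, hlt⟩
      have hend2 : s + t < x + 2 * Real.pi := by
        by_contra hc
        push Not at hc
        exact absurd (hcase _ hx2 hlt hc) (lt_irrefl _)
      have hQlow : ∀ q ∈ Q, s + t ≤ q := by
        intro q hq
        by_contra hc
        push Not at hc
        have := hcase q hq.1 hq.2 hc.le
        linarith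
      have hQb : BddBelow Q := ⟨s + t, hQlow⟩
      have hk1 : s + t ≤ sInf Q := le_csInf ⟨_, hQ1⟩ hQlow
      have hk2 : sInf Q ≤ x + 2 * Real.pi := csInf_le hQb hQ1
      have hk3 : sInf Q ∈ S :=
        (hyp.closed.closure_subset_iff.2 (fun q hq => hq.1)) (csInf_mem_closure ⟨_, hQ1⟩ hQb)
      have hk4 : ∀ θ ∈ Ioo s (sInf Q), θ ∉ S := fun θ hθ hθS =>
        absurd (csInf_le hQb (show θ ∈ Q from ⟨hθS, hθ.1⟩)) (not_le.2 hθ.2)
      have hk5 : s < sInf Q := by linarith
      have h5 : sInf Q ∈ T := ⟨hk3, by linarith, hk2,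
        go s _ hk5 (two s hsS _ hk3 hk5 hxs hk2 (by linarith) hk4) hsT.2.2.2⟩
      exact absurd (le_csSup hbdd h5) (not_le.2 hk5)
  have hfinal := hsT.2.2.2
  rw [hend] at hfinal
  have he : W ∩ Iio (x + 2 * Real.pi) = W := inter_eq_left.2 (fun θ h => (hWsub h).2)
  rwa [he] at hfinal

end Pool.Agent.E8helper26.PS
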